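import Mathlib

/-!
Beck's potential criterion for a Maker win, in a form suitable for games on the
infinite board of natural numbers: the edges `e h` (`h ∈ H`) live in a finite set `V`.
-/

namespace Pool.Agent.W_MP_3e1131_co

open Finset

variable {ι : Type*}

/-- Weight of the edge `h` at the position where Maker owns `M`. -/
noncomputable def wt (e : ι → Finset ℕ) (M : Finset ℕ) (h : ι) : ℚ :=
  (1 / 2 : ℚ) ^ ((e h \ M).card)

/-- Total weight of the edges not touched by Breaker. -/
noncomputable def T (H : Finset ι) (e : ι → Finset ℕ) (M B : Finset ℕ) : ℚ :=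
  ∑ h ∈ H.filter (fun h => Disjoint (e h) B), wt e M h

/-- Total weight of the edges through `x` not touched by Breaker. -/
noncomputable def Tx (H : Finset ι) (e : ι → Finset ℕ) (M B : Finset ℕ) (x : ℕ) : ℚ :=
  ∑ h ∈ (H.filter (fun h => Disjoint (e h) B)).filter (fun h => x ∈ e h), wt e M h

lemma wt_nonneg (e : ι → Finset ℕ) (M : Finset ℕ) (h : ι) : 0 ≤ wt e M h := by
  unfold wt; positivity

lemma wt_pos (e : ι → Finset ℕ) (M : Finset ℕ) (h : ι) : 0 < wt e M h := by
  unfold wt; positivity

lemma Tx_nonneg (H : Finset ι) (e : ι → Finset ℕ) (M B : Finset ℕ) (x : ℕ) :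
    0 ≤ Tx H e M B x := Finset.sum_nonneg fun _ _ => wt_nonneg _ _ _

lemma wt_insert_of_mem (e : ι → Finset ℕ) (M : Finset ℕ) (h : ι) {x : ℕ}
    (hx : x ∈ e h) (hM : x ∉ M) : wt e (insert x M) h = 2 * wt e M h := by
  unfold wt
  have h1 : e h \ insert x M = (e h \ M).erase x := by
    ext z; simp only [mem_sdiff, mem_insert, mem_erase]; tauto
  have h2 : x ∈ e h \ M := by simp [hx, hM]
  have h3 : (e h \ M).card = ((e h \ M).erase x).card + 1 := by
    rw [Finset.card_erase_add_one h2]
  rw [h1, h3, pow_succ]; ring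

lemma wt_insert_of_notMem (e : ι → Finset ℕ) (M : Finset ℕ) (h : ι) {x : ℕ}
    (hx : x ∉ e h) : wt e (insert x M) h = wt e M h := by
  unfold wt
  have h1 : e h \ insert x M = e h \ M := by
    ext z; simp only [mem_sdiff, mem_insert]
    constructor
    · rintro ⟨ha, hb⟩; exact ⟨ha, fun hc => hb (Or.inr hc)⟩
    · rintro ⟨ha, hb⟩; refine ⟨ha, ?_⟩
      rintro (rfl | hc)
      · exact hx ha
      · exact hb hc
  rw [h1]

lemma T_insert_maker (H : Finset ι) (e : ι → Finset ℕ) (M B : Finset ℕ) {x : ℕ} (hM : x ∉ M) :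
    T H e (insert x M) B = T H e M B + Tx H e M B x := by
  unfold T Tx
  rw [← Finset.sum_filter_add_sum_filter_not (H.filter (fun h => Disjoint (e h) B))
    (fun h => x ∈ e h) (fun h => wt e (insert x M) h),
    ← Finset.sum_filter_add_sum_filter_not (H.filter (fun h => Disjoint (e h) B))
    (fun h => x ∈ e h) (fun h => wt e M h)]
  have h1 : ∑ h ∈ (H.filter (fun h => Disjoint (e h) B)).filter (fun h => x ∈ e h),
      wt e (insert x M) h = 2 * ∑ h ∈ (H.filter (fun h => Disjoint (e h) B)).filter
        (fun h => x ∈ e h), wt e M h := by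
    rw [Finset.mul_sum]
    refine Finset.sum_congr rfl fun h hh => ?_
    exact wt_insert_of_mem e M h (by simpa using (Finset.mem_filter.mp hh).2) hM
  have h2 : ∑ h ∈ (H.filter (fun h => Disjoint (e h) B)).filter (fun h => ¬ x ∈ e h),
      wt e (insert x M) h = ∑ h ∈ (H.filter (fun h => Disjoint (e h) B)).filter
        (fun h => ¬ x ∈ e h), wt e M h := by
    refine Finset.sum_congr rfl fun h hh => ?_
    exact wt_insert_of_notMem e M h (by simpa using (Finset.mem_filter.mp hh).2)
  rw [h1, h2]; ring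

lemma T_insert_breaker (H : Finset ι) (e : ι → Finset ℕ) (M B : Finset ℕ) (y : ℕ) :
    T H e M (insert y B) = T H e M B - Tx H e M B y := by
  unfold T Tx
  rw [← Finset.sum_filter_add_sum_filter_not (H.filter (fun h => Disjoint (e h) B))
    (fun h => y ∈ e h) (fun h => wt e M h)]
  have h1 : H.filter (fun h => Disjoint (e h) (insert y B)) =
      (H.filter (fun h => Disjoint (e h) B)).filter (fun h => ¬ y ∈ e h) := by
    ext h
    simp only [mem_filter, Finset.disjoint_insert_right]
    tauto
  rw [h1]; ring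

lemma Tx_insert_maker_le (H : Finset ι) (e : ι → Finset ℕ) (M B : Finset ℕ) {x y : ℕ}
    (hx : x ∉ M) (hy : y ∉ M) (hxy : x ≠ y) {D : ℕ}
    (hD : (H.filter (fun h => x ∈ e h ∧ y ∈ e h)).card ≤ D) :
    Tx H e (insert x M) B y ≤ Tx H e M B y + D / 4 := by
  unfold Tx
  set A := (H.filter (fun h => Disjoint (e h) B)).filter (fun h => y ∈ e h) with hA
  rw [← Finset.sum_filter_add_sum_filter_not A (fun h => x ∈ e h)
      (fun h => wt e (insert x M) h),
    ← Finset.sum_filter_add_sum_filter_not A (fun h => x ∈ e h) (fun h => wt e M h)]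
  have h1 : ∑ h ∈ A.filter (fun h => x ∈ e h), wt e (insert x M) h
      = ∑ h ∈ A.filter (fun h => x ∈ e h), wt e M h
        + ∑ h ∈ A.filter (fun h => x ∈ e h), wt e M h := by
    rw [← two_mul, Finset.mul_sum]
    refine Finset.sum_congr rfl fun h hh => ?_
    exact wt_insert_of_mem e M h (by simpa using (Finset.mem_filter.mp hh).2) hx
  have h2 : ∑ h ∈ A.filter (fun h => ¬ x ∈ e h), wt e (insert x M) h
      = ∑ h ∈ A.filter (fun h => ¬ x ∈ e h), wt e M h := by
    refine Finset.sum_congr rfl fun h hh => ?_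
    exact wt_insert_of_notMem e M h (by simpa using (Finset.mem_filter.mp hh).2)
  have h3 : ∑ h ∈ A.filter (fun h => x ∈ e h), wt e M h ≤ D / 4 := by
    have h4 : ∑ h ∈ A.filter (fun h => x ∈ e h), wt e M h
        ≤ ∑ _h ∈ A.filter (fun h => x ∈ e h), (1 / 4 : ℚ) := by
      refine Finset.sum_le_sum fun h hh => ?_
      have hxe : x ∈ e h := by simpa using (Finset.mem_filter.mp hh).2
      have hye : y ∈ e h := by
        have := (Finset.mem_filter.mp hh).1
        rw [hA] at this
        simpa using (Finset.mem_filter.mp this).2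
      have hc : 2 ≤ (e h \ M).card := by
        have : ({x, y} : Finset ℕ) ⊆ e h \ M := by
          intro z hz
          simp only [Finset.mem_insert, Finset.mem_singleton] at hz
          rcases hz with rfl | rfl
          · simp [hxe, hx]
          · simp [hye, hy]
        calc 2 = ({x, y} : Finset ℕ).card := by rw [Finset.card_pair hxy]
          _ ≤ _ := Finset.card_le_card this
      unfold wt
      calc (1 / 2 : ℚ) ^ ((e h \ M).card) ≤ (1 / 2 : ℚ) ^ 2 :=
            pow_le_pow_of_le_one (by norm_num) (by norm_num) hc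
        _ = 1 / 4 := by norm_num
    refine h4.trans ?_
    rw [Finset.sum_const, nsmul_eq_mul]
    have h5 : (A.filter (fun h => x ∈ e h)).card ≤ D := by
      refine (Finset.card_le_card ?_).trans hD
      intro h hh
      have h6 := (Finset.mem_filter.mp hh)
      have h7 := h6.1
      rw [hA] at h7
      have h8 := Finset.mem_filter.mp h7
      have h9 := Finset.mem_filter.mp h8.1
      exact Finset.mem_filter.mpr ⟨h9.1, h6.2, h8.2⟩
    have h6 : ((A.filter (fun h => x ∈ e h)).card : ℚ) ≤ D := by exact_mod_cast h5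
    linarith
  rw [h1, h2]; linarith

/-- The potential. -/
noncomputable def Phi (H : Finset ι) (e : ι → Finset ℕ) (V : Finset ℕ) (D : ℕ)
    (M B : Finset ℕ) : ℚ :=
  T H e M B - (D / 8 : ℚ) * ((V \ (M ∪ B)).card : ℚ)

/-- One round, Maker playing a vertex of maximal weight. -/
lemma round_ge (H : Finset ι) (e : ι → Finset ℕ) (V : Finset ℕ) (D : ℕ)
    (heV : ∀ h ∈ H, e h ⊆ V)
    (hD : ∀ x y, x ≠ y → (H.filter (fun h => x ∈ e h ∧ y ∈ e h)).card ≤ D)
    (M B : Finset ℕ) {x y : ℕ}
    (hx : x ∈ V \ (M ∪ B)) (hmax : ∀ z ∈ V \ (M ∪ B), Tx H e M B z ≤ Tx H e M B x)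
    (hyM : y ∉ insert x M) (hyB : y ∉ B) :
    Phi H e V D M B ≤ Phi H e V D (insert x M) (insert y B) := by
  have hxM : x ∉ M := by
    simp only [mem_sdiff, mem_union] at hx; tauto
  have hyM' : y ∉ M := fun h => hyM (Finset.mem_insert_of_mem h)
  have hxy : x ≠ y := by rintro rfl; exact hyM (Finset.mem_insert_self _ _)
  unfold Phi
  rw [T_insert_breaker, T_insert_maker H e M B hxM]
  have hDq : (0 : ℚ) ≤ D := by positivity
  by_cases hyV : y ∈ V
  · have hle := Tx_insert_maker_le H e M B hxM hyM' hxy (hD x y hxy)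
    have hy' : y ∈ V \ (M ∪ B) := by simp [hyV, hyM', hyB]
    have hle2 := hmax y hy'
    have hcard : ((V \ (M ∪ B)).card : ℚ) = ((V \ (insert x M ∪ insert y B)).card : ℚ) + 2 := by
      have h1 : V \ (insert x M ∪ insert y B) = ((V \ (M ∪ B)).erase x).erase y := by
        ext z; simp only [mem_sdiff, mem_union, mem_insert, mem_erase]; tauto
      have h2 : y ∈ (V \ (M ∪ B)).erase x := Finset.mem_erase.mpr ⟨hxy.symm, hy'⟩
      have h3 := Finset.card_erase_add_one h2
      have h4 := Finset.card_erase_add_one hx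
      rw [h1]
      have : (V \ (M ∪ B)).card = (((V \ (M ∪ B)).erase x).erase y).card + 2 := by omega
      exact_mod_cast this
    rw [hcard]
    linarith
  · have h0 : Tx H e (insert x M) B y = 0 := by
      unfold Tx
      apply Finset.sum_eq_zero
      intro h hh
      exfalso
      have h6 := Finset.mem_filter.mp hh
      have h7 := Finset.mem_filter.mp h6.1
      exact hyV (heV h h7.1 h6.2)
    rw [h0]
    have hT := Tx_nonneg H e M B x
    have hcard : ((V \ (insert x M ∪ insert y B)).card : ℚ) ≤ ((V \ (M ∪ B)).card : ℚ) := by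
      have : (V \ (insert x M ∪ insert y B)).card ≤ (V \ (M ∪ B)).card := by
        apply Finset.card_le_card
        intro z; simp only [mem_sdiff, mem_union, mem_insert]; tauto
      exact_mod_cast this
    have := mul_le_mul_of_nonneg_left hcard (by positivity : (0 : ℚ) ≤ (D / 8 : ℚ))
    linarith

end Pool.Agent.W_MP_3e1131_co
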