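import Pool.Agent.W_MP_3e1131_co.Strategy

/-!
The board: all sums `∑ c_s s` with coefficients `0 ≤ c_s < K`; many copies of `S` inside.
-/

namespace Pool.Agent.W_MP_3e1131_co

open Finset

/-- All sums `∑ c_s s`, `0 ≤ c_s < j`. -/
def sums (S : Finset ℕ) (j : ℕ) : Finset ℕ :=
  (Fintype.piFinset (fun _ : S => Finset.range j)).image (fun c => ∑ s : S, c s * (s : ℕ))

lemma mem_sums {S : Finset ℕ} {j x : ℕ} :
    x ∈ sums S j ↔ ∃ c : S → ℕ, (∀ s, c s < j) ∧ ∑ s : S, c s * (s : ℕ) = x := by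
  unfold sums
  simp only [Finset.mem_image, Fintype.mem_piFinset, Finset.mem_range]

lemma card_sums_le (S : Finset ℕ) (j : ℕ) : (sums S j).card ≤ j ^ S.card := by
  unfold sums
  refine Finset.card_image_le.trans ?_
  rw [Fintype.card_piFinset]
  simp

lemma sums_nonempty (S : Finset ℕ) {j : ℕ} (hj : 0 < j) : (sums S j).Nonempty :=
  ⟨_, mem_sums.mpr ⟨fun _ => 0, fun _ => hj, rfl⟩⟩

lemma card_sums_two_mul (S : Finset ℕ) (j : ℕ) :
    (sums S (2 * j)).card ≤ 2 ^ S.card * (sums S j).card := by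
  classical
  have hsub : sums S (2 * j) ⊆
      ((Finset.univ : Finset (Finset S)) ×ˢ sums S j).image
        (fun p : Finset S × ℕ => p.2 + j * ∑ s ∈ p.1, ((s : S) : ℕ)) := by
    intro x hx
    obtain ⟨c, hc, rfl⟩ := mem_sums.mp hx
    rw [Finset.mem_image]
    refine ⟨(Finset.univ.filter (fun s : S => j ≤ c s),
      ∑ s : S, (if j ≤ c s then c s - j else c s) * (s : ℕ)), ?_, ?_⟩
    · rw [Finset.mem_product]
      refine ⟨Finset.mem_univ _, mem_sums.mpr ⟨fun s => if j ≤ c s then c s - j else c s, ?_, rfl⟩⟩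
      intro s
      have := hc s
      show (if j ≤ c s then c s - j else c s) < j
      split_ifs <;> omega
    · show (∑ s : S, (if j ≤ c s then c s - j else c s) * (s : ℕ)) +
        j * ∑ s ∈ Finset.univ.filter (fun s : S => j ≤ c s), ((s : S) : ℕ) = _
      rw [Finset.mul_sum, Finset.sum_filter, ← Finset.sum_add_distrib]
      refine Finset.sum_congr rfl fun s _ => ?_
      split_ifs with h
      · rw [← Nat.add_mul, Nat.sub_add_cancel h]
      · simp
  refine (Finset.card_le_card hsub).trans (Finset.card_image_le.trans ?_)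
  rw [Finset.card_product]
  simp

lemma add_mem_sums {S : Finset ℕ} {j a b s : ℕ} (ha : a ≤ j) (hb : b ∈ sums S j) (hs : s ∈ S) :
    a * s + b ∈ sums S (2 * j) := by
  classical
  obtain ⟨c, hc, rfl⟩ := mem_sums.mp hb
  refine mem_sums.mpr ⟨fun t => c t + if t = ⟨s, hs⟩ then a else 0, ?_, ?_⟩
  · intro t
    have := hc t
    show c t + (if t = ⟨s, hs⟩ then a else 0) < 2 * j
    split_ifs <;> omega
  · simp only [Nat.add_mul, Finset.sum_add_distrib, ite_mul, zero_mul, Finset.sum_ite_eq',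
      Finset.mem_univ, if_true]
    rw [add_comm]

/-- The edge `a S + b`. -/
def edge (S : Finset ℕ) (p : ℕ × ℕ) : Finset ℕ := S.image (fun s => p.1 * s + p.2)

lemma pair_degree (S : Finset ℕ) (H : Finset (ℕ × ℕ)) {x y : ℕ} (hxy : x ≠ y) :
    (H.filter (fun h => x ∈ edge S h ∧ y ∈ edge S h)).card ≤ S.card ^ 2 := by
  classical
  have hsub : H.filter (fun h => x ∈ edge S h ∧ y ∈ edge S h) ⊆
      (S ×ˢ S).biUnion (fun q => H.filter (fun h => h.1 * q.1 + h.2 = x ∧ h.1 * q.2 + h.2 = y)) := by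
    intro h hh
    have h1 := Finset.mem_filter.mp hh
    obtain ⟨s, hs, hs2⟩ := Finset.mem_image.mp h1.2.1
    obtain ⟨t, ht, ht2⟩ := Finset.mem_image.mp h1.2.2
    rw [Finset.mem_biUnion]
    exact ⟨(s, t), Finset.mem_product.mpr ⟨hs, ht⟩, Finset.mem_filter.mpr ⟨h1.1, hs2, ht2⟩⟩
  refine (Finset.card_le_card hsub).trans ?_
  refine (Finset.card_biUnion_le_card_mul _ _ 1 ?_).trans ?_
  · rintro ⟨s, t⟩ _
    rw [Finset.card_le_one]
    rintro ⟨a, b⟩ h1 ⟨a', b'⟩ h2
    have h1' := (Finset.mem_filter.mp h1).2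
    have h2' := (Finset.mem_filter.mp h2).2
    simp only at h1' h2'
    obtain ⟨e1, e2⟩ := h1'
    obtain ⟨e3, e4⟩ := h2'
    have hst : (s : ℤ) - t ≠ 0 := by
      intro h0
      have : s = t := by
        have : (s : ℤ) = t := by linarith
        exact_mod_cast this
      subst this
      exact hxy (e1.symm.trans e2)
    have e1' : (a : ℤ) * s + b = x := by exact_mod_cast e1
    have e2' : (a : ℤ) * t + b = y := by exact_mod_cast e2
    have e3' : (a' : ℤ) * s + b' = x := by exact_mod_cast e3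
    have e4' : (a' : ℤ) * t + b' = y := by exact_mod_cast e4
    have hz : ((a : ℤ) - a') * ((s : ℤ) - t) = 0 := by linear_combination e1' - e2' - e3' + e4'
    have ha : (a : ℤ) - a' = 0 := (mul_eq_zero.mp hz).resolve_right hst
    have ha' : a = a' := by
      have : (a : ℤ) = a' := by linarith
      exact_mod_cast this
    subst ha'
    have hb : b = b' := by omega
    rw [hb]
  · rw [Finset.card_product]; simp [sq]

/-- Main combinatorial statement. -/
theorem exists_strategy (S : Finset ℕ) (hS : S.Nonempty) :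
    ∃ σ : List ℕ → ℕ, ∀ y : ℕ → ℕ,
      (∀ i, i + 1 < (S.card * 2 ^ S.card) ^ (2 * S.card) →
        (∀ j < i, y i ≠ y j) ∧ ∀ j ≤ i, y i ≠ mv σ y j) →
      (∀ i < (S.card * 2 ^ S.card) ^ (2 * S.card),
        ∀ j < i, mv σ y i ≠ mv σ y j ∧ mv σ y i ≠ y j) ∧
      ∃ a b : ℕ, 1 ≤ a ∧ ∀ s ∈ S, a * s + b ∈
        (Finset.range ((S.card * 2 ^ S.card) ^ (2 * S.card))).image (mv σ y) := by
  classical
  set n := S.card with hn
  have hn1 : 1 ≤ n := Finset.card_pos.mpr hS
  obtain ⟨m, hm⟩ : ∃ m, n = m + 1 := ⟨n - 1, by omega⟩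
  set j := 2 * (n ^ 2 * 4 ^ m) with hj
  have hj2 : 2 * j = n ^ 2 * 4 ^ n := by rw [hj, hm, pow_succ 4 m]; ring
  have hjpos : 0 < j := by positivity
  have hN : (n * 2 ^ n) ^ (2 * n) = (2 * j) ^ n := by
    rw [hj2, pow_mul, mul_pow, ← pow_mul, mul_comm n 2, pow_mul]; norm_num
  rw [hN]
  set H : Finset (ℕ × ℕ) := (Finset.Icc 1 j) ×ˢ sums S j with hH
  have heV : ∀ h ∈ H, edge S h ⊆ sums S (2 * j) := by
    rintro ⟨a, b⟩ hh x hx
    rw [hH, Finset.mem_product, Finset.mem_Icc] at hh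
    obtain ⟨s, hs, rfl⟩ := Finset.mem_image.mp hx
    exact add_mem_sums hh.1.2 hh.2 hs
  have hD : ∀ x y, x ≠ y → (H.filter (fun h => x ∈ edge S h ∧ y ∈ edge S h)).card ≤ n ^ 2 :=
    fun x y hxy => pair_degree S H hxy
  have hHcard : H.card = j * (sums S j).card := by
    rw [hH, Finset.card_product]; simp
  have hpos : ((n ^ 2 : ℕ) / 8 : ℚ) * ((sums S (2 * j)).card : ℚ) < T H (edge S) ∅ ∅ := by
    have h1 : ((sums S (2 * j)).card : ℚ) ≤ 2 ^ n * ((sums S j).card : ℚ) := by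
      exact_mod_cast card_sums_two_mul S j
    have h2 : (j : ℚ) * ((sums S j).card : ℚ) * (1 / 2) ^ n ≤ T H (edge S) ∅ ∅ := by
      unfold T
      have hfil : H.filter (fun h => Disjoint (edge S h) ∅) = H := by
        apply Finset.filter_true_of_mem
        intro h _; exact Finset.disjoint_empty_right _
      rw [hfil]
      calc (j : ℚ) * ((sums S j).card : ℚ) * (1 / 2) ^ n
          = ∑ _h ∈ H, (1 / 2 : ℚ) ^ n := by
            rw [Finset.sum_const, hHcard, nsmul_eq_mul]; push_cast; ring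
        _ ≤ ∑ h ∈ H, wt (edge S) ∅ h := by
            refine Finset.sum_le_sum fun h _ => ?_
            unfold wt
            refine pow_le_pow_of_le_one (by norm_num) (by norm_num) ?_
            rw [Finset.sdiff_empty]
            exact Finset.card_image_le
    have h3 : (0 : ℚ) < ((sums S j).card : ℚ) := by
      exact_mod_cast Finset.card_pos.mpr (sums_nonempty S hjpos)
    have h4 : ((n ^ 2 : ℕ) / 8 : ℚ) * (2 ^ n * ((sums S j).card : ℚ)) <
        (j : ℚ) * ((sums S j).card : ℚ) * (1 / 2) ^ n := by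
      have h5 : (j : ℚ) = (n : ℚ) ^ 2 * 4 ^ n / 2 := by
        have : (2 * j : ℚ) = (n : ℚ) ^ 2 * 4 ^ n := by exact_mod_cast hj2
        linarith
      have h6 : (4 : ℚ) ^ n * (1 / 2) ^ n = 2 ^ n := by rw [← mul_pow]; norm_num
      have h7 : (j : ℚ) * ((sums S j).card : ℚ) * (1 / 2) ^ n
          = (n : ℚ) ^ 2 * 2 ^ n * ((sums S j).card : ℚ) / 2 := by
        rw [h5, ← h6]; ring
      rw [h7]
      push_cast
      have h8 : (0 : ℚ) < (n : ℚ) ^ 2 * 2 ^ n * ((sums S j).card : ℚ) := by positivity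
      nlinarith [h8]
    have h9 : ((n ^ 2 : ℕ) / 8 : ℚ) * ((sums S (2 * j)).card : ℚ) ≤
        ((n ^ 2 : ℕ) / 8 : ℚ) * (2 ^ n * ((sums S j).card : ℚ)) :=
      mul_le_mul_of_nonneg_left h1 (by positivity)
    linarith
  have hVN : (sums S (2 * j)).card ≤ (2 * j) ^ n := card_sums_le S (2 * j)
  have hN0 : 0 < (2 * j) ^ n := by positivity
  obtain ⟨σ, hσ⟩ := beck H (edge S) (sums S (2 * j)) (n ^ 2) heV hD hpos _ hVN hN0
  refine ⟨σ, fun y hy => ?_⟩
  obtain ⟨h1, ⟨a, b⟩, hab, hsub⟩ := hσ y hy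
  refine ⟨h1, a, b, ?_, fun s hs => hsub (Finset.mem_image.mpr ⟨s, hs, rfl⟩)⟩
  rw [hH, Finset.mem_product, Finset.mem_Icc] at hab
  exact hab.1.1

end Pool.Agent.W_MP_3e1131_co
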