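import Pool.Agent.W_MP_3e1131_co.Beck

/-!
From the potential argument to an explicit history-dependent strategy on the board of
natural numbers.
-/

namespace Pool.Agent.W_MP_3e1131_co

open Finset

/-- Position after the Breaker moves listed in `l`, Maker following the positional rule `τ`. -/
def posn (τ : Finset ℕ → Finset ℕ → ℕ) (l : List ℕ) : Finset ℕ × Finset ℕ :=
  l.foldl (fun p y => (insert (τ p.1 p.2) p.1, insert y p.2)) (∅, ∅)

/-- History-dependent strategy of a positional rule. -/
def strat (τ : Finset ℕ → Finset ℕ → ℕ) (l : List ℕ) : ℕ := τ (posn τ l).1 (posn τ l).2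

/-- Maker's `i`-th move. -/
def mv (σ : List ℕ → ℕ) (y : ℕ → ℕ) (i : ℕ) : ℕ := σ ((List.range i).map y)

lemma posn_succ (τ : Finset ℕ → Finset ℕ → ℕ) (y : ℕ → ℕ) (i : ℕ) :
    posn τ ((List.range (i + 1)).map y) =
      (insert (mv (strat τ) y i) (posn τ ((List.range i).map y)).1,
        insert (y i) (posn τ ((List.range i).map y)).2) := by
  unfold posn mv strat
  rw [List.range_succ, List.map_append, List.foldl_append]
  rfl

lemma posn_eq (τ : Finset ℕ → Finset ℕ → ℕ) (y : ℕ → ℕ) (i : ℕ) :
    posn τ ((List.range i).map y) =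
      ((Finset.range i).image (mv (strat τ) y), (Finset.range i).image y) := by
  induction i with
  | zero => simp [posn]
  | succ i ih =>
    rw [posn_succ, ih]
    simp only [Finset.range_add_one, Finset.image_insert]

variable {ι : Type*} [DecidableEq ι]

/-- Beck's criterion, explicit form. -/
theorem beck (H : Finset ι) (e : ι → Finset ℕ) (V : Finset ℕ) (D : ℕ)
    (heV : ∀ h ∈ H, e h ⊆ V)
    (hD : ∀ x y, x ≠ y → (H.filter (fun h => x ∈ e h ∧ y ∈ e h)).card ≤ D)
    (hpos : (D / 8 : ℚ) * (V.card : ℚ) < T H e ∅ ∅)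
    (N : ℕ) (hN : V.card ≤ N) (hN0 : 0 < N) :
    ∃ σ : List ℕ → ℕ, ∀ y : ℕ → ℕ,
      (∀ i, i + 1 < N → (∀ j < i, y i ≠ y j) ∧ ∀ j ≤ i, y i ≠ mv σ y j) →
      (∀ i < N, ∀ j < i, mv σ y i ≠ mv σ y j ∧ mv σ y i ≠ y j) ∧
      ∃ h ∈ H, e h ⊆ (Finset.range N).image (mv σ y) := by
  classical
  -- the positional rule
  have hτ : ∀ M B : Finset ℕ, ∃ x : ℕ, x ∉ M ∪ B ∧ ((V \ (M ∪ B)).Nonempty →
      x ∈ V \ (M ∪ B) ∧ ∀ z ∈ V \ (M ∪ B), Tx H e M B z ≤ Tx H e M B x) := by
    intro M B
    by_cases hne : (V \ (M ∪ B)).Nonempty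
    · obtain ⟨x, hx, hmax⟩ := Finset.exists_max_image (V \ (M ∪ B)) (Tx H e M B) hne
      exact ⟨x, (Finset.mem_sdiff.mp hx).2, fun _ => ⟨hx, hmax⟩⟩
    · obtain ⟨x, hx⟩ := Infinite.exists_notMem_finset (M ∪ B)
      exact ⟨x, hx, fun h => absurd h hne⟩
  choose τ hτ1 hτ2 using hτ
  refine ⟨strat τ, fun y hy => ?_⟩
  set Mv : ℕ → Finset ℕ := fun i => (Finset.range i).image (mv (strat τ) y) with hMv
  set Bv : ℕ → Finset ℕ := fun i => (Finset.range i).image y with hBv
  have hmv : ∀ i, mv (strat τ) y i = τ (Mv i) (Bv i) := by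
    intro i
    show τ (posn τ ((List.range i).map y)).1 (posn τ ((List.range i).map y)).2 = _
    rw [posn_eq]
  have hMs : ∀ i, Mv (i + 1) = insert (mv (strat τ) y i) (Mv i) := by
    intro i; simp only [hMv, Finset.range_add_one, Finset.image_insert]
  have hBs : ∀ i, Bv (i + 1) = insert (y i) (Bv i) := by
    intro i; simp only [hBv, Finset.range_add_one, Finset.image_insert]
  have hlegal : ∀ i, mv (strat τ) y i ∉ Mv i ∪ Bv i := by
    intro i; rw [hmv]; exact hτ1 _ _
  constructor
  · intro i _ j hj
    have h1 := hlegal i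
    rw [Finset.mem_union, not_or] at h1
    constructor
    · intro h
      exact h1.1 (Finset.mem_image.mpr ⟨j, Finset.mem_range.mpr hj, h.symm⟩)
    · intro h
      exact h1.2 (Finset.mem_image.mpr ⟨j, Finset.mem_range.mpr hj, h.symm⟩)
  · -- from a positive total weight with exhausted board to a full edge
    have hfull : ∀ M B : Finset ℕ, V ⊆ M ∪ B → 0 < T H e M B → ∃ h ∈ H, e h ⊆ M := by
      intro M B hV hT
      have hne : (H.filter (fun h => Disjoint (e h) B)).Nonempty := by
        by_contra hcon
        rw [Finset.not_nonempty_iff_eq_empty] at hcon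
        unfold T at hT
        rw [hcon] at hT
        simp at hT
      obtain ⟨h, hh⟩ := hne
      have h1 := Finset.mem_filter.mp hh
      refine ⟨h, h1.1, fun z hz => ?_⟩
      have hz2 := hV (heV h h1.1 hz)
      rcases Finset.mem_union.mp hz2 with h3 | h3
      · exact h3
      · exact absurd h3 (Finset.disjoint_left.mp h1.2 hz)
    have hPhi0 : 0 < Phi H e V D ∅ ∅ := by
      unfold Phi
      simp only [Finset.union_empty, Finset.sdiff_empty]
      linarith
    have hTge : ∀ M B : Finset ℕ, Phi H e V D ∅ ∅ ≤ Phi H e V D M B → 0 < T H e M B := by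
      intro M B hle
      have h1 : 0 < Phi H e V D M B := lt_of_lt_of_le hPhi0 hle
      unfold Phi at h1
      have h2 : (0 : ℚ) ≤ (D / 8 : ℚ) * ((V \ (M ∪ B)).card : ℚ) := by positivity
      linarith
    have hinv : ∀ i, i + 1 ≤ N → (∃ h ∈ H, e h ⊆ Mv i) ∨
        (Phi H e V D ∅ ∅ ≤ Phi H e V D (Mv i) (Bv i) ∧
          (V \ (Mv i ∪ Bv i)).card + i ≤ V.card) := by
      intro i
      induction i with
      | zero =>
        intro _
        right
        constructor
        · simp [hMv, hBv]
        · simp [hMv, hBv]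
      | succ i ih =>
        intro hi
        rcases ih (by omega) with ⟨h, hh, hsub⟩ | ⟨hphi, hcard⟩
        · left
          refine ⟨h, hh, hsub.trans ?_⟩
          rw [hMs]; exact Finset.subset_insert _ _
        · by_cases hne : (V \ (Mv i ∪ Bv i)).Nonempty
          · right
            obtain ⟨hx, hmax⟩ := hτ2 (Mv i) (Bv i) hne
            rw [← hmv] at hx hmax
            have hyl := hy i (by omega)
            have hyM : y i ∉ insert (mv (strat τ) y i) (Mv i) := by
              intro hcon
              rw [← hMs] at hcon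
              obtain ⟨j, hj, hj2⟩ := Finset.mem_image.mp hcon
              rw [Finset.mem_range] at hj
              exact hyl.2 j (by omega) hj2.symm
            have hyB : y i ∉ Bv i := by
              intro hcon
              obtain ⟨j, hj, hj2⟩ := Finset.mem_image.mp hcon
              rw [Finset.mem_range] at hj
              exact hyl.1 j hj hj2.symm
            have hr := round_ge H e V D heV hD (Mv i) (Bv i) hx hmax hyM hyB
            rw [hMs, hBs]
            refine ⟨hphi.trans hr, ?_⟩
            have h1 : V \ (insert (mv (strat τ) y i) (Mv i) ∪ insert (y i) (Bv i)) ⊆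
                (V \ (Mv i ∪ Bv i)).erase (mv (strat τ) y i) := by
              intro z; simp only [mem_sdiff, mem_union, mem_insert, mem_erase]; tauto
            have h2 := Finset.card_le_card h1
            have h3 := Finset.card_erase_add_one hx
            omega
          · left
            rw [Finset.not_nonempty_iff_eq_empty, Finset.sdiff_eq_empty_iff_subset] at hne
            obtain ⟨h, hh, hsub⟩ := hfull (Mv i) (Bv i) hne (hTge _ _ hphi)
            refine ⟨h, hh, hsub.trans ?_⟩
            rw [hMs]; exact Finset.subset_insert _ _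
    obtain ⟨k, rfl⟩ : ∃ k, N = k + 1 := ⟨N - 1, by omega⟩
    show ∃ h ∈ H, e h ⊆ Mv (k + 1)
    rcases hinv k le_rfl with ⟨h, hh, hsub⟩ | ⟨hphi, hcard⟩
    · refine ⟨h, hh, hsub.trans ?_⟩
      rw [hMs]; exact Finset.subset_insert _ _
    · by_cases hne : (V \ (Mv k ∪ Bv k)).Nonempty
      · obtain ⟨hx, hmax⟩ := hτ2 (Mv k) (Bv k) hne
        rw [← hmv] at hx hmax
        have hc1 : (V \ (Mv k ∪ Bv k)).card ≤ 1 := by omega
        have hV : V ⊆ insert (mv (strat τ) y k) (Mv k) ∪ Bv k := by
          intro z hz
          by_contra hcon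
          simp only [mem_union, mem_insert, not_or] at hcon
          have hz' : z ∈ V \ (Mv k ∪ Bv k) := by
            simp only [mem_sdiff, mem_union, not_or]
            exact ⟨hz, hcon.1.2, hcon.2⟩
          exact hcon.1.1 (Finset.card_le_one.mp hc1 z hz' _ hx)
        have hxM : mv (strat τ) y k ∉ Mv k := by
          have := hlegal k
          rw [Finset.mem_union, not_or] at this
          exact this.1
        have hT : 0 < T H e (insert (mv (strat τ) y k) (Mv k)) (Bv k) := by
          rw [T_insert_maker H e _ _ hxM]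
          have := Tx_nonneg H e (Mv k) (Bv k) (mv (strat τ) y k)
          have := hTge _ _ hphi
          linarith
        rw [hMs]
        exact hfull _ _ hV hT
      · rw [Finset.not_nonempty_iff_eq_empty, Finset.sdiff_eq_empty_iff_subset] at hne
        obtain ⟨h, hh, hsub⟩ := hfull (Mv k) (Bv k) hne (hTge _ _ hphi)
        refine ⟨h, hh, hsub.trans ?_⟩
        rw [hMs]; exact Finset.subset_insert _ _

end Pool.Agent.W_MP_3e1131_co
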